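import Pool.Agent.Lib.MP_5d7181_co.Lower

set_option autoImplicit false

open Filter Topology Pool.Agent.Lib.MP_5d7181_co

namespace Pool.Agent.Results.MP_5d7181_co.Limit

theorem result :
    Tendsto (fun m : ℕ => (alphaOd (cube (2 * m)) : ℝ) / 2 ^ (2 * m)) atTop (𝓝 (1 / 2)) :=
  limit

end Pool.Agent.Results.MP_5d7181_co.Limit
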