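import Pool.Agent.Lib.MP_5d7181_co.Lower

set_option autoImplicit false

open Pool.Agent.Lib.MP_5d7181_co

namespace Pool.Agent.Results.MP_5d7181_co.Lower

theorem result (d : ℕ) (hd : 0 < d) (he : Even d) :
    (1 - 1 / (2 : ℝ) ^ Nat.log 2 d) * 2 ^ (d - 1) ≤ (alphaOd (cube d) : ℝ) :=
  lower_real d hd he

end Pool.Agent.Results.MP_5d7181_co.Lower
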