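import Pool.Agent.Lib.MP_5d7181_co.Lower

set_option autoImplicit false

open Pool.Agent.Lib.MP_5d7181_co

namespace Pool.Agent.Results.MP_5d7181_co.PowerOfTwo

theorem result (k d : ℕ) (hk : 0 < k) (hd : d = 2 ^ k) :
    (alphaOd (cube d) : ℝ) = (1 - 1 / (d : ℝ)) * 2 ^ (d - 1) := by
  have he : Even d := hd ▸ (Nat.even_pow' hk.ne').2 even_two
  have hpos : 0 < d := hd ▸ (by positivity)
  refine le_antisymm (upper_real d hpos he) ?_
  have h := lower_real d hpos he
  have h1 : (2 : ℝ) ^ Nat.log 2 d = d := by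
    rw [hd, Nat.log_pow (by norm_num)]
    norm_cast
  rwa [h1] at h

end Pool.Agent.Results.MP_5d7181_co.PowerOfTwo
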