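import Pool.Agent.Lib.MP_5d7181_co.Lower

set_option autoImplicit false

open Pool.Agent.Lib.MP_5d7181_co

namespace Pool.Agent.Results.MP_5d7181_co.Upper

theorem result (d : ℕ) (hd : 0 < d) (he : Even d) :
    (alphaOd (cube d) : ℝ) ≤ (1 - 1 / (d : ℝ)) * 2 ^ (d - 1) :=
  upper_real d hd he

end Pool.Agent.Results.MP_5d7181_co.Upper
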